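import Pool.Agent.Helper48.KM.Stmts

set_option autoImplicit false

namespace Pool.Agent.Helper48.KM

open MvPolynomial

noncomputable section

/-- the curve: parameters `ξ κ ρ w1 c` (`c = w2 / 4`) -/
def ev3F (ξ κ ρ w1 c : ℂ) : Fin 3 → LaurentPolynomial ℂ :=
  ![LaurentPolynomial.T (-1) + LaurentPolynomial.C c * LaurentPolynomial.T 1,
    LaurentPolynomial.C ξ * (LaurentPolynomial.T (-1) + LaurentPolynomial.C c * LaurentPolynomial.T 1) ^ 2
      + LaurentPolynomial.C κ,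
    LaurentPolynomial.C ρ * ((LaurentPolynomial.T (-1) + LaurentPolynomial.C c * LaurentPolynomial.T 1) ^ 2
      - LaurentPolynomial.C w1) * (LaurentPolynomial.T (-1) - LaurentPolynomial.C c * LaurentPolynomial.T 1)]

theorem ev3_val0 (ξ κ ρ w1 c : ℂ) (s : ℂˣ) :
    val (ev3F ξ κ ρ w1 c) s 0 = (s : ℂ)⁻¹ + c * s := by
  simp [val, ev3F]

theorem ev3_val1 (ξ κ ρ w1 c : ℂ) (s : ℂˣ) :
    val (ev3F ξ κ ρ w1 c) s 1 = ξ * ((s : ℂ)⁻¹ + c * s) ^ 2 + κ := by
  simp [val, ev3F]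

theorem ev3_val2 (ξ κ ρ w1 c : ℂ) (s : ℂˣ) :
    val (ev3F ξ κ ρ w1 c) s 2 = ρ * (((s : ℂ)⁻¹ + c * s) ^ 2 - w1) * ((s : ℂ)⁻¹ - c * s) := by
  simp [val, ev3F]

theorem ev3_curve (A C α t w1 : ℂ) (hf : ph A C α ≠ 0) (ht0 : t ≠ 0)
    (ht : (3 * α ^ 2 + A) * t = 3 * ph A C α) (hw : w1 ^ 3 * ph A C α = -1)
    (hΦ : ph A C (α - t) ≠ 0) :
    ∃ f : Fin 3 → LaurentPolynomial ℂ, IsGm (surfLow 0 A C) f ∧ Lim 2 f (α - t) := by
  obtain ⟨ρ, hρ⟩ : ∃ ρ : ℂ, ρ ^ 2 = ph A C (α - t) := IsAlgClosed.exists_pow_nat_eq _ (by norm_num)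
  obtain ⟨c, hc⟩ : ∃ c : ℂ, 4 * c * ph A C (α - t) = w1 * (ph A C α - t ^ 3) :=
    ⟨w1 * (ph A C α - t ^ 3) / (4 * ph A C (α - t)), by field_simp⟩
  have hw0 : w1 ≠ 0 := by
    rintro rfl
    norm_num at hw
  have hΦe : ph A C (α - t) = -2 * ph A C α + 3 * α * t ^ 2 - t ^ 3 := by
    have h1 : ph A C (α - t) = ph A C α - (3 * α ^ 2 + A) * t + 3 * α * t ^ 2 - t ^ 3 := by
      simp only [ph]; ring
    rw [h1, ht]; ring
  have key : ∀ w : ℂ, ((α - t) * w + t * w1) ^ 3 + A * ((α - t) * w + t * w1) * w ^ 2 + C * w ^ 3 + 1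
      = ph A C (α - t) * (w - w1) ^ 2 * (w - 4 * c) := by
    intro w
    have e1 : ((α - t) * w + t * w1) ^ 3 + A * ((α - t) * w + t * w1) * w ^ 2 + C * w ^ 3 + 1
        = ph A C α * w ^ 3 - ((3 * α ^ 2 + A) * t) * (w - w1) * w ^ 2
          + 3 * α * t ^ 2 * w * (w - w1) ^ 2 - t ^ 3 * (w - w1) ^ 3 + 1 := by
      simp only [ph]; ring
    have e2 : ph A C (α - t) * (w - w1) ^ 2 * (w - 4 * c)
        = (ph A C (α - t) * w - 4 * c * ph A C (α - t)) * (w - w1) ^ 2 := by ring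
    rw [e1, e2, ht, hc, hΦe]
    linear_combination hw
  refine ⟨ev3F (α - t) (t * w1) ρ w1 c, ⟨?_, ?_⟩, ?_⟩
  · intro s
    have hs : (s : ℂ) ≠ 0 := s.ne_zero
    simp only [surfLow, Set.mem_ofPred_eq, ev3_val0, ev3_val1, ev3_val2]
    have h4 : ((s : ℂ)⁻¹ + c * s) ^ 2 - 4 * c = ((s : ℂ)⁻¹ - c * s) ^ 2 := by
      field_simp; ring
    constructor
    · have h := key (((s : ℂ)⁻¹ + c * s) ^ 2)
      have h2 : (ρ * (((s : ℂ)⁻¹ + c * s) ^ 2 - w1) * ((s : ℂ)⁻¹ - c * s)) ^ 2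
          = ρ ^ 2 * (((s : ℂ)⁻¹ + c * s) ^ 2 - w1) ^ 2 * ((s : ℂ)⁻¹ - c * s) ^ 2 := by ring
      rw [h2, hρ, ← h4, ← h]
      ring
    · rintro ⟨hz, hxy⟩
      rw [hz] at hxy
      have hκ : (α - t) * (0 : ℂ) ^ 2 + t * w1 ≠ 0 := by
        have := mul_ne_zero ht0 hw0
        simpa using this
      rcases mul_eq_zero.1 hxy with h | h
      · exact hκ h
      · have h3 := key (((s : ℂ)⁻¹ + c * s) ^ 2)
        rw [h4, hz] at h3
        have hρ0 : ρ ≠ 0 := by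
          rintro rfl
          apply hΦ
          rw [← hρ]; norm_num
        have h5 : ((s : ℂ)⁻¹ - c * s) = 0 := by
          rcases mul_eq_zero.1 h with h | h
          · rcases mul_eq_zero.1 h with h | h
            · exact absurd h hρ0
            · exfalso; apply hw0; linear_combination (-1 : ℂ) * h
          · exact h
        have h6 : (s : ℂ)⁻¹ = 0 := by linear_combination (1 / 2 : ℂ) * hz + (1 / 2 : ℂ) * h5
        exact hs (inv_eq_zero.1 h6)
  · by_contra hcon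
    push Not at hcon
    have a1 := congrFun (hcon 1 (-1)) 0
    have a2 := congrFun (hcon (Units.mk0 2 (by norm_num)) (Units.mk0 (-2) (by norm_num))) 0
    rw [ev3_val0, ev3_val0] at a1 a2
    simp only [Units.val_one, Units.val_neg, Units.val_mk0] at a1 a2
    norm_num at a1 a2
    have b1 : c = -1 := by linear_combination (1 / 2 : ℂ) * a1
    rw [b1] at a2
    norm_num at a2
  · refine ⟨1, Polynomial.C 1 + Polynomial.C c * Polynomial.X ^ 2,
      Polynomial.C (α - t) * (Polynomial.C 1 + Polynomial.C c * Polynomial.X ^ 2) ^ 2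
        + Polynomial.C (t * w1) * Polynomial.X ^ 2, le_rfl, ?_, ?_, ?_⟩
    · simp
    · simp
    · intro s
      have hs : (s : ℂ) ≠ 0 := s.ne_zero
      rw [ev3_val0, ev3_val1]
      constructor
      · simp
        field_simp
      · simp
        field_simp

theorem ev3_quad (a b c : ℂ) (h : ¬ (a = 0 ∧ b = 0 ∧ c = 0)) :
    {α : ℂ | a * α ^ 2 + b * α + c = 0}.Finite := by
  set P : Polynomial ℂ := Polynomial.C a * Polynomial.X ^ 2 + Polynomial.C b * Polynomial.X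
    + Polynomial.C c with hP
  have hP0 : P ≠ 0 := by
    intro h0
    have c2 : P.coeff 2 = a := by
      rw [hP]; simp [Polynomial.coeff_X, Polynomial.coeff_C]
    have c1 : P.coeff 1 = b := by
      rw [hP]; simp [Polynomial.coeff_X, Polynomial.coeff_C, Polynomial.coeff_X_pow]
    have c0 : P.coeff 0 = c := by
      rw [hP]; simp [Polynomial.coeff_X, Polynomial.coeff_C]
    rw [h0] at c2 c1 c0
    simp only [Polynomial.coeff_zero] at c2 c1 c0
    exact h ⟨c2.symm, c1.symm, c0.symm⟩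
  refine (P.rootSet_finite ℂ).subset ?_
  intro α hα
  rw [Set.mem_ofPred_eq] at hα
  rw [Polynomial.mem_rootSet]
  refine ⟨hP0, ?_⟩
  rw [hP]
  simpa using hα

theorem ev3_fin (A C β : ℂ) (hAC : A ≠ 0 ∨ C ≠ 0) :
    {α : ℂ | -3 * β * α ^ 2 - 2 * A * α - A * β - 3 * C = 0}.Finite := by
  refine (ev3_quad (-3 * β) (-2 * A) (- A * β - 3 * C) ?_).subset ?_
  · rintro ⟨c2, c1, c0⟩
    have hβ : β = 0 := by linear_combination (-1 / 3 : ℂ) * c2
    have hA : A = 0 := by linear_combination (-1 / 2 : ℂ) * c1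
    rw [hA, hβ] at c0
    have hC : C = 0 := by linear_combination (-1 / 3 : ℂ) * c0
    rcases hAC with h | h
    · exact h hA
    · exact h hC
  · intro α hα
    rw [Set.mem_ofPred_eq] at hα ⊢
    linear_combination hα

theorem ev3_finph (A C : ℂ) : {α : ℂ | ph A C α = 0}.Finite := by
  set P : Polynomial ℂ := Polynomial.X ^ 3 + Polynomial.C A * Polynomial.X + Polynomial.C C with hP
  have hP0 : P ≠ 0 := by
    intro h0
    have c3 : P.coeff 3 = 1 := by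
      rw [hP]; simp [Polynomial.coeff_X, Polynomial.coeff_C]
    rw [h0] at c3
    simp at c3
  refine (P.rootSet_finite ℂ).subset ?_
  intro α hα
  rw [Set.mem_ofPred_eq] at hα
  rw [Polynomial.mem_rootSet]
  refine ⟨hP0, ?_⟩
  rw [hP]
  simp
  simpa [ph] using hα

theorem ev3_findph (A : ℂ) : {α : ℂ | 3 * α ^ 2 + A = 0}.Finite := by
  set P : Polynomial ℂ := Polynomial.C 3 * Polynomial.X ^ 2 + Polynomial.C A with hP
  have hP0 : P ≠ 0 := by
    intro h0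
    have c3 : P.coeff 2 = 3 := by
      rw [hP]; simp [Polynomial.coeff_C]
    rw [h0] at c3
    simp at c3
  refine (P.rootSet_finite ℂ).subset ?_
  intro α hα
  rw [Set.mem_ofPred_eq] at hα
  rw [Polynomial.mem_rootSet]
  refine ⟨hP0, ?_⟩
  rw [hP]
  simpa using hα

theorem st_EV3 (hU : ST_UNC) : ST_EV3 := by
  intro A C hAC hcount
  set ξf : ℂ → ℂ := fun α => α - 3 * ph A C α / (3 * α ^ 2 + A) with hξf
  set S : Set ℂ := {α | ph A C α ≠ 0 ∧ 3 * α ^ 2 + A ≠ 0 ∧ ph A C (ξf α) ≠ 0} with hS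
  have hfib : ∀ α β : ℂ, 3 * α ^ 2 + A ≠ 0 → ξf α = β →
      -3 * β * α ^ 2 - 2 * A * α - A * β - 3 * C = 0 := by
    intro α β hα hβ
    rw [← hβ, hξf]
    simp only [ph]
    field_simp
    ring
  refine hU S ξf ?_ ?_ (hcount.mono ?_)
  · refine (((ev3_finph A C).union (ev3_findph A)).union
      ((ev3_finph A C).biUnion (fun β _ => ev3_fin A C β hAC))).subset ?_
    intro α hα
    rw [hS, Set.mem_compl_iff, Set.mem_ofPred_eq] at hα
    by_cases h1 : ph A C α = 0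
    · exact Or.inl (Or.inl h1)
    by_cases h2 : 3 * α ^ 2 + A = 0
    · exact Or.inl (Or.inr h2)
    right
    have h3 : ph A C (ξf α) = 0 := by
      by_contra h3
      exact hα ⟨h1, h2, h3⟩
    rw [Set.mem_iUnion₂]
    exact ⟨ξf α, h3, hfib α _ h2 rfl⟩
  · intro β
    refine (ev3_fin A C β hAC).subset ?_
    rintro α ⟨hα, hβ⟩
    exact hfib α β hα.2.1 hβ
  · rintro β ⟨α, hα, rfl⟩
    obtain ⟨h1, h2, h3⟩ := hα
    have ht0 : 3 * ph A C α / (3 * α ^ 2 + A) ≠ 0 :=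
      div_ne_zero (mul_ne_zero (by norm_num) h1) h2
    obtain ⟨w1, hw1⟩ : ∃ w : ℂ, w ^ 3 = - (ph A C α)⁻¹ := IsAlgClosed.exists_pow_nat_eq _ (by norm_num)
    refine ev3_curve A C α (3 * ph A C α / (3 * α ^ 2 + A)) w1 h1 ht0 ?_ ?_ h3
    · field_simp
    · rw [hw1]
      field_simp

end

end Pool.Agent.Helper48.KM
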